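import Mathlib

/-!
Degree and coefficient bounds for minimum-length multiples of nonmonic irreducible
integer polynomials.
-/

open Polynomial

namespace Pool.Agent.H6.MinLen

/-- The length of an integer polynomial: the sum of the absolute values of its coefficients. -/
noncomputable def len (F : ℤ[X]) : ℕ := ∑ i ∈ F.support, (F.coeff i).natAbs

lemma len_eq_range (F : ℤ[X]) (N : ℕ) (hN : F.natDegree ≤ N) :
    len F = ∑ i ∈ Finset.range (N + 1), (F.coeff i).natAbs := by
  unfold len
  apply Finset.sum_subset
  · intro i hi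
    rw [Finset.mem_range]
    have := Polynomial.le_natDegree_of_mem_supp i hi
    omega
  · intro i _ hi
    rw [Polynomial.notMem_support_iff.mp hi]
    simp

lemma len_reverse (F : ℤ[X]) : len F.reverse = len F := by
  rw [len_eq_range F.reverse F.natDegree (reverse_natDegree_le F),
    len_eq_range F F.natDegree le_rfl, ← Finset.sum_range_reflect]
  apply Finset.sum_congr rfl
  intro i hi
  rw [Finset.mem_range] at hi
  rw [coeff_reverse, revAt_le (by omega)]
  congr 2
  omega

lemma natAbs_coeff_le_len (F : ℤ[X]) (i : ℕ) : (F.coeff i).natAbs ≤ len F := by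
  by_cases h : i ∈ F.support
  · exact Finset.single_le_sum (f := fun i => (F.coeff i).natAbs) (fun _ _ => Nat.zero_le _) h
  · rw [Polynomial.notMem_support_iff.mp h]
    simp

lemma dvd_step {p : ℤ} (hp : Prime p) (Q : ℤ[X]) (j : ℕ) (hj : ¬ p ∣ Q.coeff j)
    (hj1 : 1 ≤ j) (hmin : ∀ i < j, p ∣ Q.coeff i) (v : ℕ) :
    ∀ (k : ℕ) (r : ℤ) (A : ℤ[X]), j * v < k →
      (∀ i < k, (A * Q).coeff i = if i = 0 then r else 0) → p ^ (v + 1) ∣ r := by
  induction v with
  | zero =>
    intro k r A hk h
    have h0 := h 0 (by omega)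
    rw [mul_coeff_zero, if_pos rfl] at h0
    rw [← h0, zero_add, pow_one]
    exact Dvd.dvd.mul_left (hmin 0 (by omega)) _
  | succ v ih =>
    intro k r A hk h
    have hkj : j < k := by nlinarith
    have hA : ∀ i, i + j < k → p ∣ A.coeff i := by
      intro i
      induction i using Nat.strong_induction_on with
      | _ i ihi =>
        intro hik
        have h1 := h (i + j) hik
        rw [if_neg (by omega), coeff_mul] at h1
        have hmem : ((i, j) : ℕ × ℕ) ∈ Finset.HasAntidiagonal.antidiagonal (i + j) := by simp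
        rw [← Finset.add_sum_erase _ _ hmem] at h1
        have h2 : p ∣ ∑ x ∈ (Finset.HasAntidiagonal.antidiagonal (i + j)).erase (i, j),
            A.coeff x.1 * Q.coeff x.2 := by
          apply Finset.dvd_sum
          intro x hx
          rw [Finset.mem_erase, Finset.HasAntidiagonal.mem_antidiagonal] at hx
          obtain ⟨hne, hsum⟩ := hx
          rcases lt_trichotomy x.1 i with hlt | heq | hgt
          · exact Dvd.dvd.mul_right (ihi x.1 hlt (by omega)) _
          · exfalso
            apply hne
            ext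
            · exact heq
            · simp only
              omega
          · exact Dvd.dvd.mul_left (hmin x.2 (by omega)) _
        have h3 : p ∣ A.coeff i * Q.coeff j := by
          have h4 : A.coeff i * Q.coeff j = -∑ x ∈ (Finset.HasAntidiagonal.antidiagonal (i + j)).erase (i, j),
            A.coeff x.1 * Q.coeff x.2 := by linarith
          rw [h4]
          exact (dvd_neg).mpr h2
        exact (hp.dvd_or_dvd h3).resolve_right hj
    set A' : ℤ[X] := ∑ i ∈ Finset.range (k - j), monomial i (A.coeff i / p) with hA'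
    have hA'c : ∀ i < k - j, A'.coeff i = A.coeff i / p := by
      intro i hi
      rw [hA', finsetSum_coeff]
      rw [Finset.sum_eq_single i]
      · simp
      · intro b _ hb
        rw [coeff_monomial, if_neg hb]
      · intro hni
        exact absurd (Finset.mem_range.mpr hi) hni
    have hmul : ∀ i < k - j, p * (A' * Q).coeff i = (A * Q).coeff i := by
      intro i hi
      rw [coeff_mul, coeff_mul, Finset.mul_sum]
      apply Finset.sum_congr rfl
      intro x hx
      rw [Finset.HasAntidiagonal.mem_antidiagonal] at hx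
      rw [hA'c x.1 (by omega), ← mul_assoc, Int.mul_ediv_cancel' (hA x.1 (by omega))]
    have hr : r = p * (A' * Q).coeff 0 := by
      rw [hmul 0 (by omega), h 0 (by omega), if_pos rfl]
    have h5 : p ^ (v + 1) ∣ (A' * Q).coeff 0 := by
      apply ih (k - j) _ A'
      · have : j * (v + 1) = j * v + j := by ring
        omega
      · intro i hi
        by_cases hi0 : i = 0
        · rw [if_pos hi0, hi0]
        · rw [if_neg hi0]
          have h6 := hmul i hi
          rw [h i (by omega), if_neg hi0] at h6
          rcases mul_eq_zero.mp h6 with h7 | h7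
          · exact absurd h7 hp.ne_zero
          · exact h7
    rw [hr, pow_succ']
    exact mul_dvd_mul_left _ h5

lemma resultant_ne_zero_of_irreducible (Q G : ℤ[X]) (hQ : Irreducible Q) (hdeg : Q.natDegree ≠ 0)
    (hdvd : ¬ Q ∣ G) : Q.resultant G ≠ 0 := by
  intro h
  have hprim : Q.IsPrimitive := hQ.isPrimitive hdeg
  have hG0 : G ≠ 0 := by
    rintro rfl
    exact hdvd (dvd_zero _)
  have hinj : Function.Injective (Int.castRingHom ℚ) := Int.cast_injective
  have hirr : Irreducible (Q.map (Int.castRingHom ℚ)) :=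
    (IsPrimitive.Int.irreducible_iff_irreducible_map_cast hprim).mp hQ
  have hnd : ¬ (Q.map (Int.castRingHom ℚ)) ∣ (G.map (Int.castRingHom ℚ)) := by
    intro hd
    apply hdvd
    rw [G.eq_C_content_mul_primPart, Polynomial.map_mul, map_C] at hd
    have hc : IsUnit (C ((Int.castRingHom ℚ) G.content) : ℚ[X]) := by
      rw [isUnit_C]
      have : (Int.castRingHom ℚ) G.content ≠ 0 := by
        rw [Ne, map_eq_zero_iff _ hinj, content_eq_zero_iff]
        exact hG0
      exact isUnit_iff_ne_zero.mpr this
    have hd2 := (hc.dvd_mul_left).mp hd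
    have hd3 := (IsPrimitive.Int.dvd_iff_map_cast_dvd_map_cast Q G.primPart hprim).mpr hd2
    rw [G.eq_C_content_mul_primPart]
    exact Dvd.dvd.mul_left hd3 _
  have hcop : IsCoprime (Q.map (Int.castRingHom ℚ)) (G.map (Int.castRingHom ℚ)) :=
    (hirr.coprime_iff_not_dvd).mpr hnd
  have h1 := resultant_ne_zero _ _ hcop
  rw [natDegree_map_eq_of_injective hinj, natDegree_map_eq_of_injective hinj,
    resultant_map_map, h, map_zero] at h1
  exact h1 rfl

/-- crude bound for the resultant -/
def NB (D L g : ℕ) : ℕ := (D + g) ^ (D + g) * L ^ (D + g)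

lemma resultant_natAbs_le (Q G : ℤ[X]) (L : ℕ) (hQ : len Q ≤ L) (hG : len G ≤ L) :
    (Q.resultant G).natAbs ≤ NB Q.natDegree L G.natDegree := by
  have h1 := Matrix.det_le (abv := (AbsoluteValue.abs : AbsoluteValue ℤ ℤ))
    (A := Q.sylvester G Q.natDegree G.natDegree) (x := (L : ℤ)) (by
      intro i j
      rw [AbsoluteValue.abs_apply]
      unfold sylvester
      rw [Matrix.of_apply]
      refine Fin.addCases (fun j₁ => ?_) (fun j₁ => ?_) j
      · rw [Fin.addCases_left]
        split_ifs
        · rw [Int.abs_eq_natAbs]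
          exact_mod_cast (natAbs_coeff_le_len G _).trans hG
        · simp
      · rw [Fin.addCases_right]
        split_ifs
        · rw [Int.abs_eq_natAbs]
          exact_mod_cast (natAbs_coeff_le_len Q _).trans hQ
        · simp)
  rw [AbsoluteValue.abs_apply, Fintype.card_fin] at h1
  have h2 : ((Q.resultant G).natAbs : ℤ) ≤
      ((Nat.factorial (Q.natDegree + G.natDegree) * L ^ (Q.natDegree + G.natDegree) : ℕ) : ℤ) := by
    rw [← Int.abs_eq_natAbs]
    push_cast
    simpa [resultant, nsmul_eq_mul] using h1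
  have h3 : (Q.resultant G).natAbs ≤
      Nat.factorial (Q.natDegree + G.natDegree) * L ^ (Q.natDegree + G.natDegree) := by
    exact_mod_cast h2
  refine h3.trans ?_
  unfold NB
  exact Nat.mul_le_mul_right _ (Nat.factorial_le_pow _)

lemma gap_bound (Q G U B : ℤ[X]) (hQ : Irreducible Q) (hdeg : Q.natDegree ≠ 0)
    (hQ0 : ¬ IsUnit (Q.coeff 0)) (hQ00 : Q.coeff 0 ≠ 0) (hdvd : ¬ Q ∣ G) (a L : ℕ)
    (hQL : len Q ≤ L) (hGL : len G ≤ L) (h : G = Q * U + X ^ a * B) :
    a ≤ Q.natDegree * NB Q.natDegree L G.natDegree := by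
  by_contra! hlt
  obtain ⟨p, q, -, -, hpq⟩ := exists_mul_add_mul_eq_C_resultant Q G le_rfl le_rfl (Or.inl hdeg)
  set r := Q.resultant G with hr
  have hr0 : r ≠ 0 := resultant_ne_zero_of_irreducible Q G hQ hdeg hdvd
  have hrN : r.natAbs ≤ NB Q.natDegree L G.natDegree := resultant_natAbs_le Q G L hQL hGL
  obtain ⟨π, hπ, hπ0⟩ := WfDvdMonoid.exists_irreducible_factor hQ0 hQ00
  have hπp : Prime π := hπ.prime
  have hprim : Q.IsPrimitive := hQ.isPrimitive hdeg
  have hex : ∃ j, ¬ π ∣ Q.coeff j := by
    by_contra! hall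
    have : C π ∣ Q := (C_dvd_iff_dvd_coeff _ _).mpr hall
    exact hπ.not_isUnit (hprim π this)
  classical
  set j := Nat.find hex with hj
  have hj1 : ¬ π ∣ Q.coeff j := Nat.find_spec hex
  have hjmin : ∀ i < j, π ∣ Q.coeff i := by
    intro i hi
    by_contra hni
    exact Nat.find_min hex hi hni
  have hjpos : 1 ≤ j := by
    rcases Nat.eq_zero_or_pos j with h0 | h0
    · rw [h0] at hj1
      exact absurd hπ0 hj1
    · exact h0
  have hjD : j ≤ Q.natDegree := by
    apply le_natDegree_of_ne_zero
    intro h0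
    rw [h0] at hj1
    exact hj1 (dvd_zero _)
  have hmain := dvd_step hπp Q j hj1 hjpos hjmin (NB Q.natDegree L G.natDegree) a r (p + U * q)
    (lt_of_le_of_lt (Nat.mul_le_mul_right _ hjD) hlt) (by
      intro i hi
      have e1 : (p + U * q) * Q = C r - X ^ a * (B * q) := by
        rw [← hpq, h]
        ring
      rw [e1, coeff_sub, coeff_X_pow_mul', if_neg (by omega), sub_zero, coeff_C])
  have h2 : (π ^ (NB Q.natDegree L G.natDegree + 1)).natAbs ≤ r.natAbs :=
    Int.natAbs_le_of_dvd_ne_zero hmain hr0
  rw [Int.natAbs_pow] at h2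
  have h3 : 2 ≤ π.natAbs := by
    have h4 : π.natAbs ≠ 0 := Int.natAbs_ne_zero.mpr hπp.ne_zero
    have h5 : π.natAbs ≠ 1 := by
      intro h6
      exact hπ.not_isUnit (Int.isUnit_iff_natAbs_eq.mpr h6)
    omega
  have h4 : 2 ^ (NB Q.natDegree L G.natDegree + 1) ≤
      π.natAbs ^ (NB Q.natDegree L G.natDegree + 1) := Nat.pow_le_pow_left h3 _
  have h5 : NB Q.natDegree L G.natDegree + 1 < 2 ^ (NB Q.natDegree L G.natDegree + 1) :=
    Nat.lt_two_pow_self
  omega

/-- one step of the degree bound -/
def phi (D L g : ℕ) : ℕ := g + D * NB D L g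

lemma NB_mono (D L : ℕ) (hD : 1 ≤ D) (hL : 1 ≤ L) {g g' : ℕ} (h : g ≤ g') :
    NB D L g ≤ NB D L g' := by
  unfold NB
  apply Nat.mul_le_mul
  · calc (D + g) ^ (D + g) ≤ (D + g') ^ (D + g) := Nat.pow_le_pow_left (by omega) _
      _ ≤ (D + g') ^ (D + g') := Nat.pow_le_pow_right (by omega) (by omega)
  · exact Nat.pow_le_pow_right (by omega) (by omega)

lemma phi_mono (D L : ℕ) (hD : 1 ≤ D) (hL : 1 ≤ L) : Monotone (phi D L) := by
  intro g g' h
  unfold phi
  exact Nat.add_le_add h (Nat.mul_le_mul_left _ (NB_mono D L hD hL h))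

lemma id_le_phi (D L : ℕ) : id ≤ phi D L := by
  intro g
  unfold phi
  simp

lemma support_bound (Q G : ℤ[X]) (hQ : Irreducible Q) (hdeg : Q.natDegree ≠ 0)
    (hQ0 : ¬ IsUnit (Q.coeff 0)) (hQ00 : Q.coeff 0 ≠ 0) (L : ℕ) (hQL : len Q ≤ L)
    (hGL : len G ≤ L) (hdvd : Q ∣ G) (hG0 : G.coeff 0 ≠ 0)
    (hmin : ∀ H : ℤ[X], H ≠ 0 → Q ∣ H → len G ≤ len H) :
    ∀ a, G.coeff a ≠ 0 →
      a ≤ (phi Q.natDegree L)^[∑ i ∈ Finset.range a, (G.coeff i).natAbs] 0 := by
  have hD : 1 ≤ Q.natDegree := Nat.one_le_iff_ne_zero.mpr hdeg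
  have hL : 1 ≤ L := by
    have := natAbs_coeff_le_len Q 0
    have h2 : (Q.coeff 0).natAbs ≠ 0 := Int.natAbs_ne_zero.mpr hQ00
    omega
  intro a
  induction a using Nat.strong_induction_on with
  | _ a ih =>
    intro ha
    rcases Nat.eq_zero_or_pos a with h0 | hpos
    · rw [h0]
      exact Nat.zero_le _
    have hne : ((Finset.range a).filter (fun i => G.coeff i ≠ 0)).Nonempty :=
      ⟨0, by simp [hpos, hG0]⟩
    set g := ((Finset.range a).filter (fun i => G.coeff i ≠ 0)).max' hne with hg
    have hgmem := Finset.max'_mem _ hne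
    rw [← hg, Finset.mem_filter, Finset.mem_range] at hgmem
    obtain ⟨hga, hgne⟩ := hgmem
    have hgap : ∀ i, g < i → i < a → G.coeff i = 0 := by
      intro i hi1 hi2
      by_contra hni
      have : i ≤ g := Finset.le_max' _ i (by simp [hi2, hni])
      omega
    set G1 : ℤ[X] := ∑ i ∈ Finset.range (g + 1), monomial i (G.coeff i) with hG1
    have hG1c : ∀ i, G1.coeff i = if i ≤ g then G.coeff i else 0 := by
      intro i
      rw [hG1, finsetSum_coeff]
      split_ifs with hi
      · rw [Finset.sum_eq_single i]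
        · simp
        · intro b _ hb
          rw [coeff_monomial, if_neg hb]
        · intro hni
          exact absurd (Finset.mem_range.mpr (by omega)) hni
      · apply Finset.sum_eq_zero
        intro b hb
        rw [Finset.mem_range] at hb
        rw [coeff_monomial, if_neg (by omega)]
    have hG1deg : G1.natDegree ≤ g := by
      rw [natDegree_le_iff_coeff_eq_zero]
      intro N hN
      rw [hG1c, if_neg (by omega)]
    have hG1ne : G1 ≠ 0 := by
      intro h0
      have := hG1c 0
      rw [h0, if_pos (by omega), coeff_zero] at this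
      exact hG0 this.symm
    obtain ⟨B, hB⟩ : X ^ a ∣ G - G1 := by
      rw [X_pow_dvd_iff]
      intro d hd
      rw [coeff_sub, hG1c]
      split_ifs with h1
      · simp
      · rw [hgap d (by omega) hd, sub_zero]
    obtain ⟨U, hU⟩ := hdvd
    have hlt : len G1 < len G := by
      rw [len_eq_range G G.natDegree le_rfl, len_eq_range G1 G.natDegree
        (hG1deg.trans (le_natDegree_of_ne_zero hgne))]
      apply Finset.sum_lt_sum
      · intro i _
        rw [hG1c]
        split_ifs
        · exact le_rfl
        · simp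
      · refine ⟨a, ?_, ?_⟩
        · rw [Finset.mem_range]
          have := le_natDegree_of_ne_zero ha
          omega
        · rw [hG1c, if_neg (by omega)]
          simpa using ha
    have hnd : ¬ Q ∣ G1 := by
      intro hd
      have := hmin G1 hG1ne hd
      omega
    have hgb := gap_bound Q G1 U (-B) hQ hdeg hQ0 hQ00 hnd a L hQL (hlt.le.trans hGL) (by
      rw [← hU]
      have : G1 = G - X ^ a * B := by rw [← hB]; ring
      rw [this]
      ring)
    have hb2 : a ≤ phi Q.natDegree L g := by
      refine hgb.trans ?_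
      refine (Nat.mul_le_mul_left _ (NB_mono Q.natDegree L hD hL hG1deg)).trans ?_
      unfold phi
      omega
    have hgi := ih g hga hgne
    have hS : (∑ i ∈ Finset.range g, (G.coeff i).natAbs) + 1 ≤
        ∑ i ∈ Finset.range a, (G.coeff i).natAbs := by
      calc (∑ i ∈ Finset.range g, (G.coeff i).natAbs) + 1
          ≤ (∑ i ∈ Finset.range g, (G.coeff i).natAbs) + (G.coeff g).natAbs := by
            have : (G.coeff g).natAbs ≠ 0 := Int.natAbs_ne_zero.mpr hgne
            omega
        _ = ∑ i ∈ Finset.range (g + 1), (G.coeff i).natAbs := by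
            rw [Finset.sum_range_succ]
        _ ≤ ∑ i ∈ Finset.range a, (G.coeff i).natAbs := by
            apply Finset.sum_le_sum_of_subset
            intro x hx
            rw [Finset.mem_range] at hx ⊢
            omega
    calc a ≤ phi Q.natDegree L g := hb2
      _ ≤ phi Q.natDegree L ((phi Q.natDegree L)^[∑ i ∈ Finset.range g, (G.coeff i).natAbs] 0) :=
          phi_mono _ _ hD hL hgi
      _ = (phi Q.natDegree L)^[(∑ i ∈ Finset.range g, (G.coeff i).natAbs) + 1] 0 := by
          rw [Function.iterate_succ_apply']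
      _ ≤ _ := Function.monotone_iterate_of_id_le (id_le_phi _ _) hS 0

/-- degree bound -/
def Bd (D L : ℕ) : ℕ := (phi D L)^[L] 0

/-- coefficient bound -/
def Hb (L B : ℕ) : ℕ := L * (1 + L) ^ B

lemma natDegree_bound (Q G : ℤ[X]) (hQ : Irreducible Q) (hdeg : Q.natDegree ≠ 0)
    (hQ0 : ¬ IsUnit (Q.coeff 0)) (hQ00 : Q.coeff 0 ≠ 0) (L : ℕ) (hQL : len Q ≤ L)
    (hGL : len G ≤ L) (hdvd : Q ∣ G) (hG0 : G.coeff 0 ≠ 0)
    (hmin : ∀ H : ℤ[X], H ≠ 0 → Q ∣ H → len G ≤ len H) :
    G.natDegree ≤ Bd Q.natDegree L := by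
  have hGne : G ≠ 0 := by
    rintro rfl
    simp at hG0
  have h1 := support_bound Q G hQ hdeg hQ0 hQ00 L hQL hGL hdvd hG0 hmin G.natDegree
    (by simpa using hGne)
  refine h1.trans ?_
  unfold Bd
  apply Function.monotone_iterate_of_id_le (id_le_phi _ _)
  refine le_trans ?_ hGL
  rw [len_eq_range G G.natDegree le_rfl, Finset.sum_range_succ]
  omega

lemma cofactor_bound (Q U : ℤ[X]) (hQ00 : Q.coeff 0 ≠ 0) (L : ℕ) (hQL : len Q ≤ L)
    (hGL : len (Q * U) ≤ L) : ∀ i, (U.coeff i).natAbs ≤ Hb L i := by
  intro i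
  induction i using Nat.strong_induction_on with
  | _ i ih =>
    have h1 : (Q * U).coeff i = Q.coeff 0 * U.coeff i +
        ∑ x ∈ (Finset.HasAntidiagonal.antidiagonal i).erase (0, i), Q.coeff x.1 * U.coeff x.2 := by
      rw [coeff_mul, ← Finset.add_sum_erase _ _ (show ((0, i) : ℕ × ℕ) ∈ Finset.HasAntidiagonal.antidiagonal i by simp)]
    have h2 : (Q.coeff 0 * U.coeff i).natAbs ≤ L +
        ∑ x ∈ (Finset.HasAntidiagonal.antidiagonal i).erase (0, i), (Q.coeff x.1).natAbs * (U.coeff x.2).natAbs := by
      have h3 : Q.coeff 0 * U.coeff i = (Q * U).coeff i -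
        ∑ x ∈ (Finset.HasAntidiagonal.antidiagonal i).erase (0, i), Q.coeff x.1 * U.coeff x.2 := by linarith
      rw [h3]
      refine (Int.natAbs_sub_le _ _).trans ?_
      apply Nat.add_le_add
      · exact (natAbs_coeff_le_len _ _).trans hGL
      · refine (Int.natAbs_sum_le _ _).trans ?_
        apply Finset.sum_le_sum
        intro x _
        rw [Int.natAbs_mul]
    have h4 : (U.coeff i).natAbs ≤ (Q.coeff 0 * U.coeff i).natAbs := by
      rw [Int.natAbs_mul]
      have : 1 ≤ (Q.coeff 0).natAbs := Nat.one_le_iff_ne_zero.mpr (Int.natAbs_ne_zero.mpr hQ00)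
      exact Nat.le_mul_of_pos_left _ this
    have h5 : ∑ x ∈ (Finset.HasAntidiagonal.antidiagonal i).erase (0, i),
        (Q.coeff x.1).natAbs * (U.coeff x.2).natAbs ≤ L * (if i = 0 then 0 else Hb L (i - 1)) := by
      by_cases hi : i = 0
      · rw [if_pos hi, hi]
        simp
      · rw [if_neg hi]
        calc ∑ x ∈ (Finset.HasAntidiagonal.antidiagonal i).erase (0, i),
              (Q.coeff x.1).natAbs * (U.coeff x.2).natAbs
            ≤ ∑ x ∈ (Finset.HasAntidiagonal.antidiagonal i).erase (0, i),
              (Q.coeff x.1).natAbs * Hb L (i - 1) := by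
              apply Finset.sum_le_sum
              intro x hx
              rw [Finset.mem_erase, Finset.HasAntidiagonal.mem_antidiagonal] at hx
              apply Nat.mul_le_mul_left
              have hx1 : x.1 ≠ 0 := by
                intro h0
                apply hx.1
                ext
                · exact h0
                · simp only
                  omega
              refine (ih x.2 (by omega)).trans ?_
              unfold Hb
              apply Nat.mul_le_mul_left
              apply Nat.pow_le_pow_right (by omega) (by omega)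
          _ ≤ ∑ x ∈ (Finset.HasAntidiagonal.antidiagonal i), (Q.coeff x.1).natAbs * Hb L (i - 1) := by
              apply Finset.sum_le_sum_of_subset
              exact Finset.erase_subset _ _
          _ = (∑ k ∈ Finset.range (i + 1), (Q.coeff k).natAbs) * Hb L (i - 1) := by
              rw [← Finset.sum_mul, Finset.Nat.sum_antidiagonal_eq_sum_range_succ_mk]
          _ ≤ L * Hb L (i - 1) := by
              apply Nat.mul_le_mul_right
              refine le_trans ?_ hQL
              rw [len_eq_range Q (max i Q.natDegree) (le_max_right _ _)]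
              apply Finset.sum_le_sum_of_subset
              intro x hx
              rw [Finset.mem_range] at hx ⊢
              have := le_max_left i Q.natDegree
              omega
    have h6 : L + L * (if i = 0 then 0 else Hb L (i - 1)) ≤ Hb L i := by
      by_cases hi : i = 0
      · rw [if_pos hi, hi]
        unfold Hb
        simp
      · rw [if_neg hi]
        obtain ⟨m, rfl⟩ : ∃ m, i = m + 1 := ⟨i - 1, by omega⟩
        rw [Nat.add_sub_cancel]
        unfold Hb
        have h7 : 1 ≤ (1 + L) ^ m := Nat.one_le_pow _ _ (by omega)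
        have h8 : (1 + L) ^ (m + 1) = (1 + L) ^ m * (1 + L) := pow_succ _ _
        rw [h8]
        nlinarith [Nat.zero_le L, Nat.mul_le_mul_left L h7]
    omega

end Pool.Agent.H6.MinLen
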