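import Mathlib
import Pool.Agent.H6.MinLenMath

/-!
Primitive recursiveness of the search procedure for minimum-length multiples.
-/

open Encodable

namespace Pool.Agent.H6.MinLen

lemma encode_int (z : ℤ) : encode z = Int.casesOn z (fun n => 2 * n) (fun n => 2 * n + 1) := by
  cases z <;> rfl

lemma encode_int_ofNat (n : ℕ) : encode (n : ℤ) = 2 * n := rfl

lemma encode_int_negSucc (n : ℕ) : encode (Int.negSucc n) = 2 * n + 1 := rfl

/-- positive part -/
def posP (z : ℤ) : ℕ := if encode z % 2 = 0 then encode z / 2 else 0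

/-- negative part -/
def negP (z : ℤ) : ℕ := if encode z % 2 = 0 then 0 else encode z / 2 + 1

lemma posP_sub_negP (z : ℤ) : (posP z : ℤ) - negP z = z := by
  cases z with
  | ofNat n =>
    unfold posP negP
    rw [Int.ofNat_eq_natCast, encode_int_ofNat, if_pos (by omega), if_pos (by omega)]
    omega
  | negSucc n =>
    unfold posP negP
    rw [encode_int_negSucc, if_neg (by omega), if_neg (by omega)]
    omega

lemma natAbs_eq (z : ℤ) : z.natAbs = posP z + negP z := by
  cases z with
  | ofNat n =>
    unfold posP negP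
    rw [Int.ofNat_eq_natCast, encode_int_ofNat, if_pos (by omega), if_pos (by omega)]
    omega
  | negSucc n =>
    unfold posP negP
    rw [encode_int_negSucc, if_neg (by omega), if_neg (by omega)]
    omega

lemma primrec_posP : Primrec posP := by
  unfold posP
  exact Primrec.ite (Primrec.eq.comp (Primrec.nat_mod.comp Primrec.encode (Primrec.const 2))
    (Primrec.const 0)) (Primrec.nat_div.comp Primrec.encode (Primrec.const 2)) (Primrec.const 0)

lemma primrec_negP : Primrec negP := by
  unfold negP
  exact Primrec.ite (Primrec.eq.comp (Primrec.nat_mod.comp Primrec.encode (Primrec.const 2))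
    (Primrec.const 0)) (Primrec.const 0)
    (Primrec.succ.comp (Primrec.nat_div.comp Primrec.encode (Primrec.const 2)))

lemma primrec_natAbs : Primrec Int.natAbs :=
  (Primrec.nat_add.comp primrec_posP primrec_negP).of_eq (fun z => (natAbs_eq z).symm)

lemma primrec_natSub : Primrec₂ (fun a b : ℕ => (a : ℤ) - (b : ℤ)) := by
  rw [← Primrec₂.encode_iff]
  have h : Primrec₂ (fun a b : ℕ => if b ≤ a then 2 * (a - b) else 2 * (b - a - 1) + 1) := by
    apply Primrec.ite
    · exact Primrec.nat_le.comp Primrec.snd Primrec.fst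
    · exact Primrec.nat_mul.comp (Primrec.const 2) (Primrec.nat_sub.comp Primrec.fst Primrec.snd)
    · exact Primrec.succ.comp (Primrec.nat_mul.comp (Primrec.const 2)
        (Primrec.nat_sub.comp (Primrec.nat_sub.comp Primrec.snd Primrec.fst) (Primrec.const 1)))
  refine h.of_eq ?_
  intro a b
  by_cases hab : b ≤ a
  · rw [if_pos hab]
    have : (a : ℤ) - (b : ℤ) = ((a - b : ℕ) : ℤ) := by omega
    rw [this, encode_int_ofNat]
  · rw [if_neg hab]
    have : (a : ℤ) - (b : ℤ) = Int.negSucc (b - a - 1) := by omega
    rw [this, encode_int_negSucc]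

lemma primrec_int_add : Primrec₂ (fun x y : ℤ => x + y) := by
  refine (primrec_natSub.comp₂
    (Primrec.nat_add.comp₂ (primrec_posP.comp₂ Primrec₂.left) (primrec_posP.comp₂ Primrec₂.right))
    (Primrec.nat_add.comp₂ (primrec_negP.comp₂ Primrec₂.left)
      (primrec_negP.comp₂ Primrec₂.right))).of_eq ?_
  intro x y
  have hx := posP_sub_negP x
  have hy := posP_sub_negP y
  push_cast
  linarith

lemma primrec_int_mul : Primrec₂ (fun x y : ℤ => x * y) := by
  refine (primrec_natSub.comp₂
    (Primrec.nat_add.comp₂
      (Primrec.nat_mul.comp₂ (primrec_posP.comp₂ Primrec₂.left) (primrec_posP.comp₂ Primrec₂.right))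
      (Primrec.nat_mul.comp₂ (primrec_negP.comp₂ Primrec₂.left) (primrec_negP.comp₂ Primrec₂.right)))
    (Primrec.nat_add.comp₂
      (Primrec.nat_mul.comp₂ (primrec_posP.comp₂ Primrec₂.left) (primrec_negP.comp₂ Primrec₂.right))
      (Primrec.nat_mul.comp₂ (primrec_negP.comp₂ Primrec₂.left)
        (primrec_posP.comp₂ Primrec₂.right)))).of_eq ?_
  intro x y
  have hx := posP_sub_negP x
  have hy := posP_sub_negP y
  push_cast
  conv_rhs => rw [← hx, ← hy]
  ring

/-- convolution of two coefficient lists -/
def conv (l u : List ℤ) : List ℤ :=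
  (List.range (l.length + u.length - 1)).map fun n =>
    ((List.range (n + 1)).map fun i => l.getD i 0 * u.getD (n - i) 0).foldr (fun a s => a + s) 0

/-- length (sum of absolute values) of a coefficient list -/
def lenL (l : List ℤ) : ℕ := l.foldr (fun a s => a.natAbs + s) 0

lemma primrec_conv : Primrec₂ conv := by
  unfold conv
  apply Primrec.list_map
  · exact Primrec.list_range.comp (Primrec.nat_sub.comp (Primrec.nat_add.comp
      (Primrec.list_length.comp Primrec.fst) (Primrec.list_length.comp Primrec.snd))
      (Primrec.const 1))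
  · refine Primrec.list_foldr (α := (List ℤ × List ℤ) × ℕ)
      (f := fun q => (List.range (q.2 + 1)).map fun i => q.1.1.getD i 0 * q.1.2.getD (q.2 - i) 0)
      (g := fun _ => (0 : ℤ)) (h := fun _ (p : ℤ × ℤ) => p.1 + p.2) ?_ ?_ ?_
    · apply Primrec.list_map
      · exact Primrec.list_range.comp (Primrec.succ.comp Primrec.snd)
      · apply primrec_int_mul.comp
        · exact (Primrec.list_getD 0).comp
            (Primrec.fst.comp (Primrec.fst.comp Primrec.fst)) Primrec.snd
        · exact (Primrec.list_getD 0).comp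
            (Primrec.snd.comp (Primrec.fst.comp Primrec.fst))
            (Primrec.nat_sub.comp (Primrec.snd.comp Primrec.fst) Primrec.snd)
    · exact Primrec.const 0
    · exact primrec_int_add.comp (Primrec.fst.comp Primrec.snd) (Primrec.snd.comp Primrec.snd)

lemma primrec_lenL : Primrec lenL := by
  unfold lenL
  refine Primrec.list_foldr (α := List ℤ) (f := fun l => l)
      (g := fun _ => (0 : ℕ)) (h := fun _ (p : ℤ × ℕ) => p.1.natAbs + p.2) ?_ ?_ ?_
  · exact Primrec.id
  · exact Primrec.const 0
  · exact Primrec.nat_add.comp (primrec_natAbs.comp (Primrec.fst.comp Primrec.snd))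
      (Primrec.snd.comp Primrec.snd)

lemma primrec_pow : Primrec₂ (fun a b : ℕ => a ^ b) :=
  Primrec₂.unpaired'.mp Nat.Primrec.pow

/-- the integers from `-H` to `H` -/
def box (H : ℕ) : List ℤ := (List.range (2 * H + 1)).map fun i : ℕ => (i : ℤ) - (H : ℤ)

lemma primrec_box : Primrec box := by
  unfold box
  apply Primrec.list_map
  · exact Primrec.list_range.comp (Primrec.succ.comp
      (Primrec.nat_mul.comp (Primrec.const 2) Primrec.id))
  · exact primrec_natSub.comp Primrec.snd Primrec.fst

/-- all lists of length `n` with entries in `box H` -/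
def cands (H n : ℕ) : List (List ℤ) :=
  Nat.rec [[]] (fun _ ih => ih.flatMap fun t => (box H).map fun a => a :: t) n

lemma primrec_cands : Primrec₂ cands := by
  unfold cands
  apply Primrec.nat_rec' (α := ℕ × ℕ) (f := fun p : ℕ × ℕ => p.2) (g := fun _ => [[]])
    (h := fun (p : ℕ × ℕ) (q : ℕ × List (List ℤ)) =>
      q.2.flatMap fun t => (box p.1).map fun a => a :: t)
  · exact Primrec.snd
  · exact Primrec.const _
  · apply Primrec.list_flatMap
    · exact Primrec.snd.comp Primrec.snd
    · apply Primrec.list_map
      · exact primrec_box.comp (Primrec.fst.comp (Primrec.fst.comp Primrec.fst))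
      · exact Primrec.list_cons.comp Primrec.snd (Primrec.snd.comp Primrec.fst)

/-- the best cofactor list among the candidates -/
def best (l : List ℤ) (cs : List (List ℤ)) : List ℤ :=
  cs.foldl (fun b u => if (u.getD 0 0).natAbs ≠ 0 ∧ lenL (conv l u) < lenL (conv l b) then u else b)
    [1]

lemma primrec_best : Primrec₂ best := by
  unfold best
  refine Primrec.list_foldl (α := List ℤ × List (List ℤ)) (f := fun q => q.2)
      (g := fun _ => ([1] : List ℤ)) (h := fun q (p : List ℤ × List ℤ) =>
        if (p.2.getD 0 0).natAbs ≠ 0 ∧ lenL (conv q.1 p.2) < lenL (conv q.1 p.1) then p.2 else p.1)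
      ?_ ?_ ?_
  · exact Primrec.snd
  · exact Primrec.const _
  · apply Primrec.ite
    · apply PrimrecPred.and
      · apply PrimrecPred.not
        exact Primrec.eq.comp (primrec_natAbs.comp ((Primrec.list_getD 0).comp
          (Primrec.snd.comp Primrec.snd) (Primrec.const 0))) (Primrec.const 0)
      · exact Primrec.nat_lt.comp
          (primrec_lenL.comp (primrec_conv.comp (Primrec.fst.comp Primrec.fst)
            (Primrec.snd.comp Primrec.snd)))
          (primrec_lenL.comp (primrec_conv.comp (Primrec.fst.comp Primrec.fst)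
            (Primrec.fst.comp Primrec.snd)))
    · exact Primrec.snd.comp Primrec.snd
    · exact Primrec.fst.comp Primrec.snd

lemma primrec_phi : Primrec₂ (fun (p : ℕ × ℕ) (g : ℕ) => phi p.1 p.2 g) := by
  unfold phi NB
  have hD : Primrec (fun q : (ℕ × ℕ) × ℕ => q.1.1) := Primrec.fst.comp Primrec.fst
  have hL : Primrec (fun q : (ℕ × ℕ) × ℕ => q.1.2) := Primrec.snd.comp Primrec.fst
  have hg : Primrec (fun q : (ℕ × ℕ) × ℕ => q.2) := Primrec.snd
  have hDg : Primrec (fun q : (ℕ × ℕ) × ℕ => q.1.1 + q.2) := Primrec.nat_add.comp hD hg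
  exact Primrec.nat_add.comp hg (Primrec.nat_mul.comp hD (Primrec.nat_mul.comp
    (primrec_pow.comp hDg hDg) (primrec_pow.comp hL hDg)))

lemma primrec_Bd : Primrec₂ Bd := by
  unfold Bd
  exact Primrec.nat_iterate Primrec.snd (Primrec.const 0) primrec_phi

lemma primrec_Hb : Primrec₂ Hb := by
  unfold Hb
  exact Primrec.nat_mul.comp Primrec.fst (primrec_pow.comp
    (Primrec.nat_add.comp (Primrec.const 1) Primrec.fst) Primrec.snd)

/-- degree bound as a function of the input list -/
def BL (l : List ℤ) : ℕ := Bd (l.length - 1) (lenL l)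

lemma primrec_BL : Primrec BL :=
  primrec_Bd.comp (Primrec.nat_sub.comp Primrec.list_length (Primrec.const 1)) primrec_lenL

/-- the procedure: search for the best cofactor in a box -/
def alg (l : List ℤ) : List ℤ :=
  conv l (best l (cands (Hb (lenL l) (BL l)) (BL l + 1)))

lemma primrec_alg : Primrec alg := by
  unfold alg
  exact primrec_conv.comp Primrec.id (primrec_best.comp Primrec.id (primrec_cands.comp
    (primrec_Hb.comp primrec_lenL primrec_BL) (Primrec.succ.comp primrec_BL)))

lemma mem_cands (H n : ℕ) (u : List ℤ) (hl : u.length = n) (hu : ∀ a ∈ u, a.natAbs ≤ H) :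
    u ∈ cands H n := by
  induction n generalizing u with
  | zero =>
    rw [List.length_eq_zero_iff] at hl
    subst hl
    exact List.mem_singleton.mpr rfl
  | succ n ih =>
    cases u with
    | nil => simp at hl
    | cons a t =>
      have ht := ih t (by simpa using hl) (fun b hb => hu b (List.mem_cons_of_mem _ hb))
      have ha := hu a (List.mem_cons_self)
      change (a :: t) ∈ (cands H n).flatMap fun t => (box H).map fun a => a :: t
      rw [List.mem_flatMap]
      refine ⟨t, ht, ?_⟩
      rw [List.mem_map]
      refine ⟨a, ?_, rfl⟩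
      unfold box
      rw [List.mem_map]
      refine ⟨(a + H).toNat, ?_, ?_⟩
      · rw [List.mem_range]
        omega
      · omega

lemma best_spec (l : List ℤ) (cs : List (List ℤ)) :
    (best l cs).getD 0 0 ≠ 0 ∧ ∀ u ∈ cs, u.getD 0 0 ≠ 0 →
      lenL (conv l (best l cs)) ≤ lenL (conv l u) := by
  have key : ∀ (cs : List (List ℤ)) (b : List ℤ), b.getD 0 0 ≠ 0 →
      let c := cs.foldl (fun b u => if (u.getD 0 0).natAbs ≠ 0 ∧ lenL (conv l u) < lenL (conv l b)
        then u else b) b
      c.getD 0 0 ≠ 0 ∧ lenL (conv l c) ≤ lenL (conv l b) ∧ ∀ u ∈ cs, u.getD 0 0 ≠ 0 →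
        lenL (conv l c) ≤ lenL (conv l u) := by
    intro cs
    induction cs with
    | nil =>
      intro b hb
      refine ⟨hb, le_rfl, ?_⟩
      intro u hu
      simp at hu
    | cons v cs ih =>
      intro b hb
      simp only [List.foldl_cons]
      split_ifs with hc
      · obtain ⟨h1, h2, h3⟩ := ih v (Int.natAbs_ne_zero.mp hc.1)
        refine ⟨h1, h2.trans hc.2.le, ?_⟩
        intro u hu hu0
        rcases List.mem_cons.mp hu with rfl | hu
        · exact h2
        · exact h3 u hu hu0
      · obtain ⟨h1, h2, h3⟩ := ih b hb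
        refine ⟨h1, h2, ?_⟩
        intro u hu hu0
        rcases List.mem_cons.mp hu with rfl | hu
        · refine h2.trans ?_
          by_contra! hlt
          exact hc ⟨Int.natAbs_ne_zero.mpr hu0, hlt⟩
        · exact h3 u hu hu0
  obtain ⟨h1, -, h3⟩ := key cs [1] (by simp)
  exact ⟨h1, h3⟩

end Pool.Agent.H6.MinLen
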