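import Mathlib
import Pool.Agent.H6.MinLenMath
import Pool.Agent.H6.MinLenComp

/-!
Correctness of the search procedure for minimum-length multiples.
-/

open Polynomial

namespace Pool.Agent.H6.MinLen

/-- the polynomial with coefficient list `l` (constant coefficient first) -/
noncomputable def cv (l : List ℤ) : ℤ[X] := ∑ i ∈ Finset.range l.length, monomial i (l.getD i 0)

lemma coeff_cv (l : List ℤ) (i : ℕ) : (cv l).coeff i = l.getD i 0 := by
  unfold cv
  rw [finsetSum_coeff]
  by_cases hi : i < l.length
  · rw [Finset.sum_eq_single i]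
    · simp
    · intro b _ hb
      rw [coeff_monomial, if_neg hb]
    · intro hni
      exact absurd (Finset.mem_range.mpr hi) hni
  · rw [List.getD_eq_default _ _ (by omega)]
    apply Finset.sum_eq_zero
    intro b hb
    rw [Finset.mem_range] at hb
    rw [coeff_monomial, if_neg (by omega)]

lemma natDegree_cv (l : List ℤ) (hl : l ≠ []) : (cv l).natDegree ≤ l.length - 1 := by
  rw [natDegree_le_iff_coeff_eq_zero]
  intro N hN
  rw [coeff_cv, List.getD_eq_default _ _ (by
    have := List.length_pos_iff.mpr hl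
    omega)]

lemma foldr_add_eq_sum (f : ℕ → ℤ) (n : ℕ) :
    ((List.range n).map f).foldr (fun a s => a + s) 0 = ∑ i ∈ Finset.range n, f i := by
  change ((List.range n).map f).sum = _
  rw [Finset.sum_range]
  rw [← List.sum_ofFn]
  congr 1
  apply List.ext_getElem
  · simp
  · intro i h1 h2
    simp

lemma lenL_eq (l : List ℤ) : lenL l = ∑ i ∈ Finset.range l.length, (l.getD i 0).natAbs := by
  induction l with
  | nil => simp [lenL]
  | cons a l ih =>
    rw [List.length_cons, Finset.sum_range_succ']
    simp only [List.getD_cons_succ, List.getD_cons_zero]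
    rw [← ih, add_comm]
    rfl

lemma len_cv (l : List ℤ) : len (cv l) = lenL l := by
  by_cases hl : l = []
  · subst hl
    simp [len, cv, lenL]
  · rw [len_eq_range (cv l) (l.length - 1) (natDegree_cv l hl), lenL_eq]
    have := List.length_pos_iff.mpr hl
    rw [Nat.sub_add_cancel this]
    apply Finset.sum_congr rfl
    intro i _
    rw [coeff_cv]

lemma cv_conv (l u : List ℤ) (hl : l ≠ []) (hu : u ≠ []) : cv (conv l u) = cv l * cv u := by
  ext n
  rw [coeff_cv]
  have h1 := List.length_pos_iff.mpr hl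
  have h2 := List.length_pos_iff.mpr hu
  by_cases hn : n < l.length + u.length - 1
  · unfold conv
    rw [List.getD_eq_getElem _ _ (by simpa using hn), List.getElem_map, List.getElem_range,
      foldr_add_eq_sum, coeff_mul, Finset.Nat.sum_antidiagonal_eq_sum_range_succ_mk]
    apply Finset.sum_congr rfl
    intro i _
    simp only [coeff_cv]
  · rw [List.getD_eq_default _ _ (by
      unfold conv
      simp only [List.length_map, List.length_range]
      omega)]
    symm
    apply coeff_eq_zero_of_natDegree_lt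
    refine lt_of_le_of_lt natDegree_mul_le ?_
    have h3 := natDegree_cv l hl
    have h4 := natDegree_cv u hu
    omega

lemma getD_coeffList (P : ℤ[X]) (hP : P ≠ 0) (i : ℕ) (hi : i ≤ P.natDegree) :
    P.coeffList.getD i 0 = P.coeff (P.natDegree - i) := by
  have hlen : P.coeffList.length = P.natDegree + 1 := by
    rw [length_coeffList_eq_ite, if_neg hP]
  rw [List.getD_eq_getElem _ _ (by omega)]
  unfold coeffList
  rw [List.getElem_map, List.getElem_reverse, List.getElem_range]
  congr 1
  rw [List.length_range, withBotSucc_degree_eq_natDegree_add_one hP]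
  omega

lemma cv_coeffList (P : ℤ[X]) (hP : P ≠ 0) : cv P.coeffList = P.reverse := by
  ext i
  rw [coeff_cv, coeff_reverse]
  by_cases hi : i ≤ P.natDegree
  · rw [getD_coeffList P hP i hi, revAt_le hi]
  · rw [revAt_eq_self_of_lt (by omega), List.getD_eq_default _ _ (by
      rw [length_coeffList_eq_ite, if_neg hP]
      omega), coeff_eq_zero_of_natDegree_lt (by omega)]

lemma len_eq_lenL (F : ℤ[X]) (hF : F ≠ 0) : len F = lenL F.coeffList := by
  rw [← len_cv, cv_coeffList F hF, len_reverse]

lemma coeff_zero_ne (P : ℤ[X]) (hirr : Irreducible P) (hlc : ¬ IsUnit P.leadingCoeff) :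
    P.coeff 0 ≠ 0 := by
  intro h
  rw [← X_dvd_iff] at h
  obtain ⟨c, hc⟩ := h
  rcases hirr.isUnit_or_isUnit hc with h1 | h1
  · exact not_isUnit_X h1
  · apply hlc
    rw [hc, leadingCoeff_mul, leadingCoeff_X, one_mul]
    obtain ⟨r, hr, rfl⟩ := isUnit_iff.mp h1
    rw [leadingCoeff_C]
    exact hr

lemma reverse_reverse' (P : ℤ[X]) (h : P.coeff 0 ≠ 0) : P.reverse.reverse = P := by
  have h0 : P.natTrailingDegree = 0 := natTrailingDegree_eq_zero.mpr (Or.inr h)
  have h1 : P.reverse.natDegree = P.natDegree := by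
    rw [reverse_natDegree, h0, Nat.sub_zero]
  ext i
  rw [coeff_reverse, coeff_reverse, h1, revAt_invol]

lemma natDegree_reverse' (P : ℤ[X]) (h : P.coeff 0 ≠ 0) : P.reverse.natDegree = P.natDegree := by
  have h0 : P.natTrailingDegree = 0 := natTrailingDegree_eq_zero.mpr (Or.inr h)
  rw [reverse_natDegree, h0, Nat.sub_zero]

lemma isUnit_of_reverse (a : ℤ[X]) (h0 : a.coeff 0 ≠ 0) (h : IsUnit a.reverse) : IsUnit a := by
  obtain ⟨r, hr, hra⟩ := isUnit_iff.mp h
  have h1 : a = C r := by
    rw [← reverse_reverse' a h0, ← hra, reverse_C]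
  rw [h1]
  exact isUnit_C.mpr hr

lemma irreducible_reverse (P : ℤ[X]) (hirr : Irreducible P) (h0 : P.coeff 0 ≠ 0) :
    Irreducible P.reverse := by
  constructor
  · intro hu
    exact hirr.not_isUnit (isUnit_of_reverse P h0 hu)
  · intro a b hab
    have h1 : P = a.reverse * b.reverse := by
      rw [← reverse_mul_of_domain, ← hab, reverse_reverse' P h0]
    have hP0 : P.reverse.coeff 0 ≠ 0 := by
      rw [coeff_zero_reverse]
      exact leadingCoeff_ne_zero.mpr hirr.ne_zero
    rw [hab, mul_coeff_zero] at hP0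
    have ha0 : a.coeff 0 ≠ 0 := left_ne_zero_of_mul hP0
    have hb0 : b.coeff 0 ≠ 0 := right_ne_zero_of_mul hP0
    rcases hirr.isUnit_or_isUnit h1 with h | h
    · exact Or.inl (isUnit_of_reverse a ha0 h)
    · exact Or.inr (isUnit_of_reverse b hb0 h)

/-- the list of the first `n` coefficients -/
lemma cv_map_range (U : ℤ[X]) (n : ℕ) (h : U.natDegree < n) :
    cv ((List.range n).map U.coeff) = U := by
  ext i
  rw [coeff_cv]
  by_cases hi : i < n
  · rw [List.getD_eq_getElem _ _ (by simpa using hi), List.getElem_map, List.getElem_range]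
  · rw [List.getD_eq_default _ _ (by simp; omega), coeff_eq_zero_of_natDegree_lt (by omega)]

lemma coeffList_of_reflect (l u : List ℤ) (P : ℤ[X]) (hP : P ≠ 0) (hl : l = P.coeffList)
    (hu : u.getD 0 0 ≠ 0) :
    (P * reflect (u.length - 1) (cv u)).coeffList = conv l u ∧
      P * reflect (u.length - 1) (cv u) ≠ 0 := by
  have hune : u ≠ [] := by
    rintro rfl
    simp at hu
  have hupos := List.length_pos_iff.mpr hune
  have hllen : l.length = P.natDegree + 1 := by
    rw [hl, length_coeffList_eq_ite, if_neg hP]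
  have hlne : l ≠ [] := by
    rintro rfl
    simp at hllen
  set T := reflect (u.length - 1) (cv u) with hT
  have hTlead : T.coeff (u.length - 1) = u.getD 0 0 := by
    rw [hT, coeff_reflect, revAt_le le_rfl, Nat.sub_self, coeff_cv]
  have hTne : T ≠ 0 := by
    intro h
    rw [h, coeff_zero] at hTlead
    exact hu hTlead.symm
  have hTdeg : T.natDegree = u.length - 1 := by
    apply le_antisymm
    · rw [natDegree_le_iff_coeff_eq_zero]
      intro N hN
      rw [hT, coeff_reflect, revAt_eq_self_of_lt hN, coeff_cv, List.getD_eq_default _ _ (by omega)]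
    · apply le_natDegree_of_ne_zero
      rw [hTlead]
      exact hu
  have hFne : P * T ≠ 0 := mul_ne_zero hP hTne
  have hFdeg : (P * T).natDegree = P.natDegree + (u.length - 1) := by
    rw [natDegree_mul hP hTne, hTdeg]
  refine ⟨?_, hFne⟩
  have hPr : P = reflect P.natDegree (cv l) := by
    rw [hl, cv_coeffList P hP]
    unfold reverse
    rw [reflect_reflect]
  have hprod : P * T = reflect (P.natDegree + (u.length - 1)) (cv (conv l u)) := by
    rw [cv_conv l u hlne hune, reflect_mul _ _ (by
      have := natDegree_cv l hlne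
      omega) (natDegree_cv u hune), ← hPr]
  have hlen : (P * T).coeffList.length = (conv l u).length := by
    rw [length_coeffList_eq_ite, if_neg hFne, hFdeg]
    unfold conv
    rw [List.length_map, List.length_range]
    omega
  apply List.ext_getElem hlen
  intro i h1 h2
  rw [← List.getD_eq_getElem _ 0 h1, ← List.getD_eq_getElem _ 0 h2]
  have hi : i ≤ (P * T).natDegree := by
    rw [length_coeffList_eq_ite, if_neg hFne] at h1
    omega
  rw [getD_coeffList _ hFne i hi, ← coeff_cv (conv l u), hprod, coeff_reflect]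
  rw [← hprod, hFdeg, revAt_le (Nat.sub_le _ _)]
  congr 1
  rw [hFdeg] at hi
  omega

theorem alg_correct (P : ℤ[X]) (hirr : Irreducible P) (hdeg : 1 ≤ P.natDegree)
    (hlc : ¬ IsUnit P.leadingCoeff) :
    ∃ F : ℤ[X], F ≠ 0 ∧ P ∣ F ∧ (∀ G : ℤ[X], G ≠ 0 → P ∣ G → len F ≤ len G) ∧
      alg P.coeffList = F.coeffList := by
  classical
  have hPne : P ≠ 0 := hirr.ne_zero
  have hP0 : P.coeff 0 ≠ 0 := coeff_zero_ne P hirr hlc
  set l := P.coeffList with hl
  have hlne : l ≠ [] := by
    rw [hl, Ne, coeffList_eq_nil]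
    exact hPne
  have hllen : l.length = P.natDegree + 1 := by
    rw [hl, length_coeffList_eq_ite, if_neg hPne]
  set Q := P.reverse with hQ
  have hQcv : cv l = Q := cv_coeffList P hPne
  have hQirr : Irreducible Q := irreducible_reverse P hirr hP0
  have hQdeg : Q.natDegree = P.natDegree := natDegree_reverse' P hP0
  have hQc0 : Q.coeff 0 = P.leadingCoeff := coeff_zero_reverse P
  have hQ0 : ¬ IsUnit (Q.coeff 0) := by rw [hQc0]; exact hlc
  have hQ00 : Q.coeff 0 ≠ 0 := by rw [hQc0]; exact leadingCoeff_ne_zero.mpr hPne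
  have hlenQ : len Q = lenL l := by rw [← hQcv, len_cv]
  obtain ⟨hb0, hbmin⟩ := best_spec l (cands (Hb (lenL l) (BL l)) (BL l + 1))
  set b := best l (cands (Hb (lenL l) (BL l)) (BL l + 1)) with hb
  have hbne : b ≠ [] := by
    intro h
    rw [h] at hb0
    simp at hb0
  obtain ⟨hF1, hF2⟩ := coeffList_of_reflect l b P hPne hl hb0
  refine ⟨P * reflect (b.length - 1) (cv b), hF2, dvd_mul_right _ _, ?_, ?_⟩
  swap
  · rw [hF1]
    rfl
  -- minimality
  have hex : ∃ n, ∃ F : ℤ[X], F ≠ 0 ∧ P ∣ F ∧ len F = n := ⟨len P, P, hPne, dvd_rfl, rfl⟩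
  obtain ⟨F0, hF0ne, ⟨T0, hT0⟩, hF0len⟩ := Nat.find_spec hex
  have hF0min : ∀ G : ℤ[X], G ≠ 0 → P ∣ G → len F0 ≤ len G := by
    intro G hG hPG
    rw [hF0len]
    exact Nat.find_min' hex ⟨G, hG, hPG, rfl⟩
  have hmain : len (P * reflect (b.length - 1) (cv b)) ≤ len F0 := by
    rw [len_eq_lenL _ hF2, hF1]
    have hT0ne : T0 ≠ 0 := by
      rintro rfl
      exact hF0ne (by rw [hT0, mul_zero])
    set U := T0.reverse with hU
    have hU0 : U.coeff 0 ≠ 0 := by
      rw [hU, coeff_zero_reverse]
      exact leadingCoeff_ne_zero.mpr hT0ne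
    have hQU : Q * U = F0.reverse := by
      rw [hT0, reverse_mul_of_domain]
    have hlenQU : len (Q * U) = len F0 := by rw [hQU, len_reverse]
    have hF0P : len F0 ≤ len P := hF0min P hPne dvd_rfl
    have hPQ : len P = len Q := by rw [hQ, len_reverse]
    have hQmin : ∀ H : ℤ[X], H ≠ 0 → Q ∣ H → len (Q * U) ≤ len H := by
      intro H hH hQH
      obtain ⟨V, hV⟩ := hQH
      rw [hlenQU, ← len_reverse H]
      apply hF0min
      · rw [Ne, reverse_eq_zero]
        exact hH
      · rw [hV, reverse_mul_of_domain, hQ, reverse_reverse' P hP0]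
        exact dvd_mul_right _ _
    have hQUL : len (Q * U) ≤ lenL l := by
      rw [hlenQU, ← hlenQ, ← hPQ]
      exact hF0P
    have hdegb := natDegree_bound Q (Q * U) hQirr (by omega) hQ0 hQ00 (lenL l) hlenQ.le hQUL
      (dvd_mul_right _ _) (by rw [mul_coeff_zero]; exact mul_ne_zero hQ00 hU0) hQmin
    have hBL : Bd Q.natDegree (lenL l) = BL l := by
      unfold BL
      rw [hQdeg, hllen, Nat.add_sub_cancel]
    rw [hBL] at hdegb
    have hUne : U ≠ 0 := by
      intro h
      rw [h, coeff_zero] at hU0
      exact hU0 rfl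
    have hUdeg : U.natDegree ≤ BL l := by
      rw [natDegree_mul hQirr.ne_zero hUne] at hdegb
      omega
    set u0 := (List.range (BL l + 1)).map U.coeff with hu0
    have hcvu0 : cv u0 = U := cv_map_range U _ (by omega)
    have hu0ne : u0 ≠ [] := by
      rw [hu0]
      simp
    have hu00 : u0.getD 0 0 ≠ 0 := by
      rw [← coeff_cv, hcvu0]
      exact hU0
    have hmem : u0 ∈ cands (Hb (lenL l) (BL l)) (BL l + 1) := by
      apply mem_cands
      · rw [hu0]
        simp
      · intro a ha
        rw [hu0, List.mem_map] at ha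
        obtain ⟨i, hi, rfl⟩ := ha
        rw [List.mem_range] at hi
        refine (cofactor_bound Q U hQ00 (lenL l) hlenQ.le hQUL i).trans ?_
        unfold Hb
        apply Nat.mul_le_mul_left
        exact Nat.pow_le_pow_right (by omega) (by omega)
    have h1 := hbmin u0 hmem hu00
    refine h1.trans ?_
    rw [← len_cv, cv_conv l u0 hlne hu0ne, hQcv, hcvu0, hlenQU]
  intro G hG hPG
  exact hmain.trans (hF0min G hG hPG)

end Pool.Agent.H6.MinLen
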